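import Pool.Agent.H35.SW.FStmts

/-!
Module VAL: every element of the extension is the value of a name, and the extension is a
generic extension in the abstract sense.
-/

set_option linter.unusedVariables false
set_option synthInstance.maxSize 100000

namespace SW

section

variable {M : Type} [SetStr M] [ZF M]

/-- a name for the unordered pair of the values of two names -/
noncomputable def upn (F : FPoset M) (x y : M) : M := upair (opair x F.one) (opair y F.one)

/-- a name for the ordered pair of the values of two names -/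
noncomputable def opn (F : FPoset M) (x y : M) : M := upn F (upn F x x) (upn F x y)

instance (F : FPoset M) {n : ℕ} {t s : (Fin n → M) → M} [ht : DfT t] [hs : DfT s] :
    DfT (fun v => upn F (t v) (s v)) := by unfold upn; infer_instance

instance (F : FPoset M) {n : ℕ} {t s : (Fin n → M) → M} [ht : DfT t] [hs : DfT s] :
    DfT (fun v => opn F (t v) (s v)) := by unfold opn; infer_instance

variable {F : FPoset M} {G : M → Prop}

theorem mk_upn (hG : Gen F G) [ZF (Ext F G)] (hx : ExtFacts F G) (x y : M) :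
    mk F G (upn F x y) = upair (mk F G x) (mk F G y) := by
  refine ext fun w => ?_
  rw [hx.mem_iff', mem_upair]
  constructor
  · rintro ⟨d, s, h, hs, rfl⟩
    simp only [upn, mem_upair, opair_inj] at h
    rcases h with ⟨rfl, _⟩ | ⟨rfl, _⟩
    · exact Or.inl rfl
    · exact Or.inr rfl
  · rintro (rfl | rfl)
    · exact ⟨x, F.one, by simp [upn], hG.one, rfl⟩
    · exact ⟨y, F.one, by simp [upn], hG.one, rfl⟩

theorem mk_opn (hG : Gen F G) [ZF (Ext F G)] (hx : ExtFacts F G) (x y : M) :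
    mk F G (opn F x y) = opair (mk F G x) (mk F G y) := by
  unfold opn opair sing
  rw [mk_upn hG hx, mk_upn hG hx, mk_upn hG hx]

theorem emb_upair [ZF (Ext F G)] (he : EmbFacts F G) (x y : M) :
    emb F G (upair x y) = upair (emb F G x) (emb F G y) := by
  refine ext fun w => ?_
  rw [mem_upair]
  constructor
  · intro h
    obtain ⟨z, hz, rfl⟩ := he.trans _ _ h
    rw [mem_upair] at hz
    rcases hz with rfl | rfl
    · exact Or.inl rfl
    · exact Or.inr rfl
  · rintro (rfl | rfl)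
    · exact (he.mem _ _).2 (by simp)
    · exact (he.mem _ _).2 (by simp)

theorem emb_opair [ZF (Ext F G)] (he : EmbFacts F G) (x y : M) :
    emb F G (opair x y) = opair (emb F G x) (emb F G y) := by
  unfold opair sing
  rw [emb_upair he, emb_upair he, emb_upair he]

/-- a pair in the image of the embedding is the image of a pair -/
theorem opair_mem_emb [ZF (Ext F G)] (he : EmbFacts F G) {r p : Ext F G} {c : M}
    (h : E (opair r p) (emb F G c)) :
    ∃ r₀ p₀, E (opair r₀ p₀) c ∧ r = emb F G r₀ ∧ p = emb F G p₀ := by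
  obtain ⟨d, hd, h1⟩ := he.trans _ _ h
  have h2 : E (upair r p) (emb F G d) := by rw [← h1]; simp [opair]
  obtain ⟨d', hd', h3⟩ := he.trans _ _ h2
  have h4 : E r (emb F G d') := by rw [← h3]; simp
  have h5 : E p (emb F G d') := by rw [← h3]; simp
  obtain ⟨r₀, _, rfl⟩ := he.trans _ _ h4
  obtain ⟨p₀, _, rfl⟩ := he.trans _ _ h5
  refine ⟨r₀, p₀, ?_, rfl, rfl⟩
  rw [← emb_opair he] at h1
  rw [(he.inj _ _).1 h1]
  exact hd

/-- a name for the function `emb c ↦ mk c` for `c ∈ t` -/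
noncomputable def evn (F : FPoset M) (t : M) : M :=
  img t (fun c => opair (opn F (chk F c) c) F.one)

theorem mem_evn (hG : Gen F G) [ZF (Ext F G)] (hx : ExtFacts F G) {t : M} {w : Ext F G} :
    E w (mk F G (evn F t)) ↔ ∃ c, E c t ∧ w = opair (emb F G c) (mk F G c) := by
  rw [hx.mem_iff']
  constructor
  · rintro ⟨d, s, h, hs, rfl⟩
    unfold evn at h
    rw [mem_img' inferInstance] at h
    obtain ⟨c, hc, h⟩ := h
    rw [opair_inj] at h
    obtain ⟨rfl, rfl⟩ := h
    exact ⟨c, hc, mk_opn hG hx _ _⟩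
  · rintro ⟨c, hc, rfl⟩
    refine ⟨opn F (chk F c) c, F.one, ?_, hG.one, (mk_opn hG hx _ _).symm⟩
    unfold evn
    rw [mem_img' inferInstance]
    exact ⟨c, hc, rfl⟩

theorem mem_trans_opair {t c r p : M} (ht : Trans t) (hc : E c t) (h : E (opair r p) c) :
    E r t := by
  have h1 := ht c hc _ h
  have h2 : E (sing r) t := ht _ h1 _ (by simp [opair])
  exact ht _ h2 _ (by simp)

theorem isVal_mk (hG : Gen F G) [ZF (Ext F G)] (hx : ExtFacts F G) (he : EmbFacts F G) (a : M) :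
    IsVal (mk F G (Gnm F)) (emb F G a) (mk F G a) := by
  have ht := Trans_tc (sing a)
  have ha : E a (tc (sing a)) := sub_tc _ _ (by simp)
  have hGm : ∀ p, E (emb F G p) (mk F G (Gnm F)) ↔ G p := by
    intro p
    rw [he.G_mem]
    constructor
    · rintro ⟨q, hq, h⟩
      rw [(he.inj _ _).1 h]; exact hq
    · intro h
      exact ⟨p, h, rfl⟩
  have hf : ∀ s z, PairIn s z (mk F G (evn F (tc (sing a)))) ↔
      ∃ c, E c (tc (sing a)) ∧ s = emb F G c ∧ z = mk F G c := by
    intro s z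
    rw [pairIn_iff, mem_evn hG hx]
    simp only [opair_inj]
  refine ⟨mk F G (evn F (tc (sing a))), (hf _ _).2 ⟨a, ha, rfl, rfl⟩, ?_, ?_⟩
  · intro s z z' h h'
    obtain ⟨c, _, rfl, rfl⟩ := (hf _ _).1 h
    obtain ⟨c', _, h1, rfl⟩ := (hf _ _).1 h'
    rw [(he.inj _ _).1 h1]
  · intro s z h
    obtain ⟨c, hc, rfl, rfl⟩ := (hf _ _).1 h
    constructor
    · intro r p hp hrp
      rw [pairIn_iff] at hrp
      obtain ⟨r₀, p₀, h1, rfl, rfl⟩ := opair_mem_emb he hrp
      exact ⟨mk F G r₀, (hf _ _).2 ⟨r₀, mem_trans_opair ht hc h1, rfl, rfl⟩⟩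
    · intro w
      rw [hx.mem_iff']
      constructor
      · rintro ⟨d, s, hds, hs, rfl⟩
        refine ⟨emb F G d, emb F G s, (hGm s).2 hs, ?_, ?_⟩
        · rw [pairIn_iff, ← emb_opair he, he.mem]; exact hds
        · exact (hf _ _).2 ⟨d, mem_trans_opair ht hc hds, rfl, rfl⟩
      · rintro ⟨r, p, hp, hrp, hrw⟩
        rw [pairIn_iff] at hrp
        obtain ⟨r₀, p₀, h1, rfl, rfl⟩ := opair_mem_emb he hrp
        obtain ⟨c', _, h2, rfl⟩ := (hf _ _).1 hrw
        rw [(he.inj _ _).1 h2] at h1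
        exact ⟨c', p₀, h1, (hGm _).1 hp, rfl⟩

/-- the order of a poset as a set of pairs -/
noncomputable def leS (F : FPoset M) : M :=
  sep (prod F.P F.P) (fun z => ∃ p q, z = opair p q ∧ F.le p q)

theorem pairIn_leS {p q : M} : PairIn p q (leS F) ↔ E p F.P ∧ E q F.P ∧ F.le p q := by
  rw [pairIn_iff]
  unfold leS
  rw [mem_sep' inferInstance, mem_prod]
  constructor
  · rintro ⟨⟨h1, h2⟩, p', q', h3, h4⟩
    rw [opair_inj] at h3
    obtain ⟨rfl, rfl⟩ := h3
    exact ⟨h1, h2, h4⟩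
  · rintro ⟨h1, h2, h3⟩
    exact ⟨⟨h1, h2⟩, p, q, rfl, h3⟩

end

theorem val (hq : QUOStmt) (hm : EMBStmt) : VALStmt := by
  intro M _ _ _ F G hG hZ
  have hx := hq M F G hG
  have he := hm M F G hG
  have hGm : ∀ p, E (emb F G p) (mk F G (Gnm F)) ↔ G p := by
    intro p
    rw [he.G_mem]
    constructor
    · rintro ⟨q, hq, h⟩
      rw [(he.inj _ _).1 h]; exact hq
    · intro h
      exact ⟨p, h, rfl⟩
  refine ⟨fun x y => (he.inj x y).1, he.mem, fun x z h => ?_, F.P, leS F, F.one,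
    mk F G (Gnm F), ?_, ?_, ?_, ?_, ?_, ?_, ?_⟩
  · obtain ⟨y, _, rfl⟩ := he.trans _ _ h
    exact ⟨y, rfl⟩
  · refine ⟨F.one_mem, fun p hp => pairIn_leS.2 ⟨hp, hp, F.refl p hp⟩, ?_, ?_⟩
    · intro p q r hp hq hr h1 h2
      exact pairIn_leS.2 ⟨hp, hr, F.trans p q r hp hq hr (pairIn_leS.1 h1).2.2
        (pairIn_leS.1 h2).2.2⟩
    · intro p hp
      exact pairIn_leS.2 ⟨hp, F.one_mem, F.le_one p hp⟩
  · intro z hz
    obtain ⟨p, hp, rfl⟩ := (he.G_mem z).1 hz
    exact ⟨p, hG.sub p hp, rfl⟩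
  · exact (hGm _).2 hG.one
  · intro p q hp hq h
    exact (hGm _).2 (hG.up p q ((hGm _).1 hp) hq (pairIn_leS.1 h).2.2)
  · intro p q hp hq
    obtain ⟨r, hr, h1, h2⟩ := hG.dir p q ((hGm _).1 hp) ((hGm _).1 hq)
    exact ⟨r, (hGm _).2 hr, pairIn_leS.2 ⟨hG.sub r hr, hG.sub p ((hGm _).1 hp), h1⟩,
      pairIn_leS.2 ⟨hG.sub r hr, hG.sub q ((hGm _).1 hq), h2⟩⟩
  · intro D hD
    obtain ⟨p, hp, hpD⟩ := hG.meet D fun p hp => by
      obtain ⟨q, h1, h2, h3⟩ := hD p hp
      exact ⟨q, h1, (pairIn_leS.1 h3).2.2, h2⟩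
    exact ⟨p, hG.sub p hp, hpD, (hGm _).2 hp⟩
  · intro y
    obtain ⟨a, rfl⟩ := Quot.exists_rep y
    exact ⟨a, isVal_mk hG hx he a⟩

end SW
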